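import Pool.Agent.N891.KS.Stm

/-!
# Spherical clusters (MP_5bdae7_gt): the boundaries of the regions of the example
-/

open Metric Set Filter Topology

namespace Pool.Agent.N680.KS

open Pool.Agent.N891.KS

lemma norm_cB : ‖cB‖ = 20 := by
  unfold cB
  rw [EuclideanSpace.norm_single]
  norm_num

lemma tri (x : E3) : 20 ≤ dist x 0 + dist x cB := by
  have h := dist_triangle_left (0 : E3) cB x
  rw [dist_zero_left, norm_cB] at h
  exact h

lemma closure_annulus : closure (ball (0 : E3) 6 \ closedBall 0 3) = closedBall 0 6 \ ball 0 3 := by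
  apply Subset.antisymm
  · apply closure_minimal
    · intro x hx
      exact ⟨ball_subset_closedBall hx.1, fun h => hx.2 (ball_subset_closedBall h)⟩
    · exact isClosed_closedBall.sdiff isOpen_ball
  · intro x hx
    have h6 : ‖x‖ ≤ 6 := by simpa using hx.1
    have h3 : 3 ≤ ‖x‖ := by simpa using hx.2
    have hx0 : 0 < ‖x‖ := by linarith
    have hu : Tendsto (fun t : ℝ => (1 - t + t * (4.5 / ‖x‖)) • x) (𝓝[>] 0) (𝓝 x) := by
      have hc : Continuous (fun t : ℝ => (1 - t + t * (4.5 / ‖x‖)) • x) := by fun_prop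
      exact (hc.tendsto' 0 x (by simp)).mono_left nhdsWithin_le_nhds
    refine mem_closure_of_tendsto hu ?_
    filter_upwards [Ioo_mem_nhdsGT (show (0 : ℝ) < 1 by norm_num)] with t ht
    have h0 : 0 ≤ 1 - t + t * (4.5 / ‖x‖) := by
      have := ht.1.le
      have := ht.2.le
      have h4 : 0 ≤ 4.5 / ‖x‖ := by positivity
      nlinarith
    have hn : ‖(1 - t + t * (4.5 / ‖x‖)) • x‖ = (1 - t) * ‖x‖ + t * 4.5 := by
      rw [norm_smul, Real.norm_of_nonneg h0, add_mul, mul_assoc, div_mul_cancel₀ _ hx0.ne']
    have h1 := ht.1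
    have h2 := ht.2
    constructor
    · rw [mem_ball_zero_iff, hn]
      nlinarith
    · rw [mem_closedBall_zero_iff, hn, not_le]
      nlinarith

lemma cells0 : cells 0 = ball 0 3 ∪ ball cB 2 := rfl

lemma cells1 : cells 1 = ball 0 6 \ closedBall 0 3 := rfl

lemma closure0 : closure (cells 0) = closedBall 0 3 ∪ closedBall cB 2 := by
  rw [cells0, closure_union, closure_ball _ (by norm_num), closure_ball _ (by norm_num)]

lemma two (r : ℝ) (hr : r < 18) :
    (closedBall (0 : E3) r ∪ closedBall cB 2) \ (ball 0 r ∪ ball cB 2) = sphere 0 r ∪ sphere cB 2 := by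
  ext x
  have h := tri x
  simp only [mem_diff, mem_union, mem_closedBall, mem_ball, mem_sphere, not_or, not_lt]
  constructor
  · rintro ⟨h1 | h1, h2, h3⟩
    · exact Or.inl (le_antisymm h1 h2)
    · exact Or.inr (le_antisymm h1 h3)
  · rintro (h1 | h1)
    · exact ⟨Or.inl h1.le, h1.ge, by linarith⟩
    · exact ⟨Or.inr h1.le, by linarith, h1.ge⟩

lemma closureU : closure (⋃ i, cells i) = closedBall (0 : E3) 6 ∪ closedBall cB 2 := by
  have h : (⋃ i, cells i) = cells 0 ∪ cells 1 := by
    ext x
    simp only [mem_iUnion, Fin.exists_fin_two, mem_union]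
  rw [h, closure_union, closure0, cells1, closure_annulus]
  ext x
  simp only [mem_diff, mem_union, mem_closedBall, mem_ball, not_lt]
  constructor
  · rintro ((h1 | h1) | ⟨h1, -⟩)
    · exact Or.inl (by linarith)
    · exact Or.inr h1
    · exact Or.inl h1
  · rintro (h1 | h1)
    · rcases le_or_gt (dist x 0) 3 with h2 | h2
      · exact Or.inl (Or.inl h2)
      · exact Or.inr ⟨h1, h2.le⟩
    · exact Or.inl (Or.inr h1)

theorem t_FRONT : S_FRONT := by
  refine ⟨?_, ?_, ?_, ?_, ?_, ?_, ?_⟩
  · rw [IsOpen.frontier_eq (by rw [cells0]; exact isOpen_ball.union isOpen_ball), closure0, cells0]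
    exact two 3 (by norm_num)
  · rw [IsOpen.frontier_eq (by rw [cells1]; exact isOpen_ball.sdiff isClosed_closedBall), cells1,
      closure_annulus]
    ext x
    simp only [mem_diff, mem_union, mem_closedBall, mem_ball, mem_sphere, not_lt, not_and, not_not]
    constructor
    · rintro ⟨⟨h1, h2⟩, h3⟩
      rcases h1.lt_or_eq with h4 | h4
      · exact Or.inl (le_antisymm (h3 h4) h2)
      · exact Or.inr h4
    · rintro (h1 | h1)
      · exact ⟨⟨by linarith, h1.ge⟩, fun _ => h1.le⟩
      · exact ⟨⟨h1.le, by linarith⟩, fun h => absurd h1 h.ne⟩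
  · rw [closureU]
  · rw [closureU, frontier_compl,
      (isClosed_closedBall.union isClosed_closedBall).frontier_eq]
    have hd : Disjoint (closure (closedBall (0 : E3) 6)) (closure (closedBall cB 2)) := by
      rw [isClosed_closedBall.closure_eq, isClosed_closedBall.closure_eq, Set.disjoint_left]
      intro x h1 h2
      have h := tri x
      rw [mem_closedBall] at h1 h2
      linarith
    rw [interior_union_of_disjoint_closure hd, interior_closedBall _ (by norm_num),
      interior_closedBall _ (by norm_num)]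
    exact two 6 (by norm_num)
  · rw [eq_empty_iff_forall_notMem]
    rintro x ⟨h1, h2⟩
    rw [mem_sphere] at h1 h2
    linarith
  · rw [eq_empty_iff_forall_notMem]
    rintro x ⟨h1, h2⟩
    have h := tri x
    rw [mem_sphere] at h1 h2
    linarith
  · rw [eq_empty_iff_forall_notMem]
    rintro x ⟨h1, h2⟩
    have h := tri x
    rw [mem_sphere] at h1 h2
    linarith

end Pool.Agent.N680.KS
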